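import Mathlib
import Pool.Agent.H15.IC1

set_option autoImplicit false

namespace Pool.Agent.Results.MP_a23160_lc.Coloring

theorem result : ∃ f : ℝ → Fin 2, ∀ X : Set ℝ,
    (∃ c : Fin 2, ∀ x ∈ X, ∀ y ∈ X, x ≠ y → f |x - y| = c) → X.Countable :=
  Pool.Agent.H15.IC.main

end Pool.Agent.Results.MP_a23160_lc.Coloring
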